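import Pool.Agent.H93.BD.Targets2
import Pool.Agent.H18.BD.RES
import Pool.Agent.H96.BD.Abase

/-!
# (GNA) decoupling with general centres
-/

set_option autoImplicit false

open MeasureTheory
open scoped ENNReal NNReal

namespace Pool.Agent.H68.BD

open Pool.Agent.H93.BD Pool.Agent.H96.BD

/-- index of the cell of the centre -/
noncomputable def kap {m : ℕ} (a : ℕ) (c : E m) : Fin m → ℤ := fun i => ⌊2 ^ a * Int.fract (c i)⌋

/-- integer part of the centre -/
noncomputable def vin {m : ℕ} (c : E m) : Fin m → ℤ := fun i => ⌊c i⌋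

private lemma kap_mem {m : ℕ} (a : ℕ) (c : E m) : kap a c ∈ Bx m a := by
  rw [mem_Bx]
  intro i
  have h0 : (0 : ℝ) < 2 ^ a := by positivity
  constructor
  · exact Int.floor_nonneg.2 (mul_nonneg h0.le (Int.fract_nonneg _))
  · rw [kap, Int.floor_lt]
    push_cast
    have := Int.fract_lt_one (c i)
    nlinarith

private lemma near_pt {m : ℕ} (a : ℕ) (c : E m) :
    ‖c - pt 0 (vin c) - pt a (kap a c)‖ ≤ (m + 1) * (1 / 2 ^ a) := by
  have h0 : (0 : ℝ) < 2 ^ a := by positivity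
  refine norm_le_coord _ _ (by positivity) fun i => ?_
  show |c i - pt 0 (vin c) i - pt a (kap a c) i| ≤ 1 / 2 ^ a
  rw [pt_apply, pt_apply]
  have h1 : c i - ((vin c i : ℤ) : ℝ) / 2 ^ 0 = Int.fract (c i) := by
    rw [pow_zero, div_one]; rfl
  rw [h1]
  have h2 := Int.floor_le (2 ^ a * Int.fract (c i))
  have h3 := Int.lt_floor_add_one (2 ^ a * Int.fract (c i))
  have h4 : Int.fract (c i) - ((kap a c i : ℤ) : ℝ) / 2 ^ a =
      (2 ^ a * Int.fract (c i) - ((kap a c i : ℤ) : ℝ)) * (1 / 2 ^ a) := by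
    field_simp
  have h5 : 0 ≤ 2 ^ a * Int.fract (c i) - ((kap a c i : ℤ) : ℝ) := by
    unfold kap; linarith
  have h6 : 2 ^ a * Int.fract (c i) - ((kap a c i : ℤ) : ℝ) ≤ 1 := by
    unfold kap; linarith
  rw [h4, abs_of_nonneg (mul_nonneg h5 (by positivity))]
  have h7 : (0 : ℝ) < 1 / 2 ^ a := by positivity
  nlinarith

open Classical in
private lemma fib_card {m : ℕ} (a M : ℕ) {ι : Type} (T : Finset ι) (c : ι → E m)
    (hM : ∀ ξ : E m, ∀ T' ⊆ T, (∀ t ∈ T', ‖ξ - c t‖ ≤ 1 / 2 ^ a) → T'.card ≤ M)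
    (v κ : Fin m → ℤ) :
    (T.filter fun t => vin (c t) = v ∧ kap a (c t) = κ).card ≤ M * (m + 1) ^ m := by
  have h0 : (0 : ℝ) < 2 ^ a := by positivity
  have hm : (0 : ℝ) < (m : ℝ) + 1 := by positivity
  set ρ : ι → Fin m → ℤ := fun t i => ⌊((m : ℝ) + 1) * (2 ^ a * Int.fract (c t i) - κ i)⌋ with hρ
  have hcard : (Fintype.piFinset fun _ : Fin m => Finset.Icc (0 : ℤ) m).card = (m + 1) ^ m := by
    rw [Fintype.card_piFinset]
    simp
  rw [← hcard]
  refine Finset.card_le_mul_card_image_of_maps_to (f := ρ) ?_ M ?_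
  · intro t ht
    obtain ⟨-, -, hk⟩ := Finset.mem_filter.1 ht
    rw [Fintype.mem_piFinset]
    intro i
    have hki : ⌊2 ^ a * Int.fract (c t i)⌋ = κ i := congrFun hk i
    have h2 := Int.floor_le (2 ^ a * Int.fract (c t i))
    have h3 := Int.lt_floor_add_one (2 ^ a * Int.fract (c t i))
    rw [hki] at h2 h3
    rw [Finset.mem_Icc]
    constructor
    · exact Int.floor_nonneg.2 (mul_nonneg hm.le (by linarith))
    · have h4 : ρ t i < (m : ℤ) + 1 := by
        rw [hρ]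
        beta_reduce
        rw [Int.floor_lt]
        push_cast
        nlinarith
      omega
  · intro b _
    rcases Finset.eq_empty_or_nonempty (((T.filter fun t => vin (c t) = v ∧ kap a (c t) = κ)).filter
      fun t => ρ t = b) with he | ⟨t0, ht0⟩
    · rw [he]; simp
    refine hM (c t0) _ ?_ ?_
    · intro t ht
      exact (Finset.mem_filter.1 (Finset.mem_filter.1 ht).1).1
    · intro t ht
      obtain ⟨h1, hb⟩ := Finset.mem_filter.1 ht
      obtain ⟨-, hv, hk⟩ := Finset.mem_filter.1 h1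
      obtain ⟨h1', hb'⟩ := Finset.mem_filter.1 ht0
      obtain ⟨-, hv', hk'⟩ := Finset.mem_filter.1 h1'
      have hco : ∀ i, |(c t0 - c t) i| ≤ 1 / (((m : ℝ) + 1) * 2 ^ a) := by
        intro i
        show |c t0 i - c t i| ≤ _
        have e1 : ((⌊c t i⌋ : ℤ) : ℝ) = v i := by rw [← congrFun hv i]; rfl
        have e2 : ((⌊c t0 i⌋ : ℤ) : ℝ) = v i := by rw [← congrFun hv' i]; rfl
        have f1 : c t i = v i + Int.fract (c t i) := by rw [← e1]; exact (Int.floor_add_fract _).symm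
        have f2 : c t0 i = v i + Int.fract (c t0 i) := by
          rw [← e2]; exact (Int.floor_add_fract _).symm
        have g1 := Int.floor_le (((m : ℝ) + 1) * (2 ^ a * Int.fract (c t i) - κ i))
        have g2 := Int.lt_floor_add_one (((m : ℝ) + 1) * (2 ^ a * Int.fract (c t i) - κ i))
        have g3 := Int.floor_le (((m : ℝ) + 1) * (2 ^ a * Int.fract (c t0 i) - κ i))
        have g4 := Int.lt_floor_add_one (((m : ℝ) + 1) * (2 ^ a * Int.fract (c t0 i) - κ i))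
        have e3 : ⌊((m : ℝ) + 1) * (2 ^ a * Int.fract (c t i) - κ i)⌋ = b i := congrFun hb i
        have e4 : ⌊((m : ℝ) + 1) * (2 ^ a * Int.fract (c t0 i) - κ i)⌋ = b i := congrFun hb' i
        rw [e3] at g1 g2
        rw [e4] at g3 g4
        have hpos : 0 < ((m : ℝ) + 1) * 2 ^ a := by positivity
        have g5 : |(Int.fract (c t0 i) - Int.fract (c t i)) * (((m : ℝ) + 1) * 2 ^ a)| ≤ 1 := by
          rw [abs_le]
          constructor
          · nlinarith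
          · nlinarith
        have g6 : c t0 i - c t i = Int.fract (c t0 i) - Int.fract (c t i) := by
          rw [f1, f2]
          simp only [Int.fract_intCast_add, Int.fract_fract]
          ring
        rw [g6, le_div_iff₀ hpos]
        rwa [abs_mul, abs_of_pos hpos] at g5
      refine (norm_le_coord _ _ (by positivity) hco).trans (le_of_eq ?_)
      field_simp

private lemma nrm_sum_le {m : ℕ} {p : ℝ} (hp : 1 ≤ p) {ι : Type} (s : Finset ι)
    (F : ι → X m → ℂ) (hF : ∀ i ∈ s, Continuous (F i)) :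
    nrm p (fun x => ∑ i ∈ s, F i x) ≤ ∑ i ∈ s, nrm p (F i) := by
  simp only [nrm_eq]
  have h := eLpNorm'_sum_le (μ := (volume : Measure (X m))) (f := F)
    (s := s) (q := p) (fun i hi => (hF i hi).aestronglyMeasurable) hp
  refine le_trans (le_of_eq ?_) h
  congr 1
  funext x
  rw [Finset.sum_apply]

open Pool.Agent.H18.BD.RES in
private lemma cap_shift {m : ℕ} {C0 : ℝ} {a : ℕ} {c : E m} {g : X m → ℂ}
    (hg : InCap C0 (1 / 2 ^ a) c g)
    (hint : Integrable (fun z => g ((pt 0 (vin c), ‖pt 0 (vin c)‖ ^ 2) + Af 1 (pt 0 (vin c)) z))) :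
    InCap (|C0| + (m + 1)) (1 / 2 ^ a) (pt a (kap a c))
      (fun z => g ((pt 0 (vin c), ‖pt 0 (vin c)‖ ^ 2) + Af 1 (pt 0 (vin c)) z)) := by
  refine ⟨hint, fun z hz => ?_⟩
  obtain ⟨h1, h2⟩ := hg.supp _ hz
  have hn := near_pt a c
  set v := pt 0 (vin c) with hv
  have hr0 : (0 : ℝ) < 1 / 2 ^ a := by positivity
  have e1 : (((v, ‖v‖ ^ 2) : X m) + Af 1 v z).1 = v + (1 : ℝ) • z.1 := rfl
  have e2 : (((v, ‖v‖ ^ 2) : X m) + Af 1 v z).2 =
      ‖v‖ ^ 2 + (1 ^ 2 * z.2 + 2 * 1 * inner ℝ v z.1) := rfl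
  rw [e1, one_smul] at h1
  rw [e1, e2, one_smul] at h2
  have e5 : ‖v‖ ^ 2 + (1 ^ 2 * z.2 + 2 * 1 * inner ℝ v z.1) - ‖v + z.1‖ ^ 2 =
      z.2 - ‖z.1‖ ^ 2 := by
    rw [norm_add_sq_real]; ring
  rw [e5] at h2
  have hC := le_abs_self C0
  have hm : (0 : ℝ) ≤ (m : ℝ) + 1 := by positivity
  constructor
  · have e6 : z.1 - pt a (kap a c) = (v + z.1 - c) + (c - v - pt a (kap a c)) := by abel
    rw [e6]
    refine (norm_add_le _ _).trans ?_
    nlinarith
  · have h3 : (0 : ℝ) < (1 / 2 ^ a) ^ 2 := by positivity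
    nlinarith

open Pool.Agent.H18.BD.RES in
open Classical in
/-- one class -/
private lemma one_class {m : ℕ} {p : ℝ} (hp : 2 ≤ p) {C0 : ℝ} {a M : ℕ} {D : ℝ≥0∞}
    (hD : Dec m p (|C0| + (m + 1)) a D) {ι : Type} (T : Finset ι) (c : ι → E m)
    (g : ι → X m → ℂ) (hg : ∀ t ∈ T, InCap C0 (1 / 2 ^ a) (c t) (g t))
    (hM : ∀ ξ : E m, ∀ T' ⊆ T, (∀ t ∈ T', ‖ξ - c t‖ ≤ 1 / 2 ^ a) → T'.card ≤ M)
    (v : Fin m → ℤ) :
    nrm p (fun x => ∑ t ∈ T.filter fun t => vin (c t) = v, FI (g t) x) ≤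
      D * (((M * (m + 1) ^ m : ℕ) : ℝ≥0∞) ^ (1 / 2 : ℝ) *
        l2 (T.filter fun t => vin (c t) = v) (fun t => nrm p (FI (g t)))) := by
  have hp0 : 0 < p := by linarith
  have hp1 : 1 ≤ p := by linarith
  set Tv := T.filter fun t => vin (c t) = v with hTv
  set w : E m := pt 0 v with hw
  set s : X m := (w, ‖w‖ ^ 2) with hs
  obtain ⟨J, hJ, hFI, hint⟩ := change (one_ne_zero (α := ℝ)) w s
  obtain ⟨k, hk⟩ := nrm_change (one_ne_zero (α := ℝ)) w s hp0 J
  set g' : ι → X m → ℂ := fun t z => g t (s + Af 1 w z) with hg'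
  set G : (Fin m → ℤ) → X m → ℂ := fun κ z => ∑ t ∈ Tv.filter fun t => kap a (c t) = κ, g' t z
    with hG
  have hcap : ∀ t ∈ Tv, InCap (|C0| + (m + 1)) (1 / 2 ^ a) (pt a (kap a (c t))) (g' t) := by
    intro t ht
    obtain ⟨htT, htv⟩ := Finset.mem_filter.1 ht
    have h1 := cap_shift (hg t htT) (by
      rw [htv]
      exact hint _ (hg t htT).int)
    rw [htv] at h1
    exact h1
  have hcont : ∀ t ∈ Tv, Continuous (FI (g' t)) := fun t ht =>
    (pf_FCT m (g' t) (hcap t ht).int).1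
  have hcls : Cls m (|C0| + (m + 1)) a G := by
    intro κ _
    refine ⟨integrable_finsetSum _ fun t ht => (hcap t (Finset.mem_filter.1 ht).1).int,
      fun z hz => ?_⟩
    obtain ⟨t, ht, hne⟩ := Finset.exists_ne_zero_of_sum_ne_zero hz
    obtain ⟨htv, htk⟩ := Finset.mem_filter.1 ht
    have h1 := (hcap t htv).supp z hne
    rw [htk] at h1
    exact h1
  have hGF : ∀ κ x, FI (G κ) x = ∑ t ∈ Tv.filter fun t => kap a (c t) = κ, FI (g' t) x := by
    intro κ x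
    exact FI_sum _ _ (fun t ht => (hcap t (Finset.mem_filter.1 ht).1).int) x
  have h1 := hD G hcls
  have h2 : (fun x => ∑ t ∈ Tv, FI (g t) x) = fun x => (J : ℂ) * (ph s x *
      (fun x => ∑ κ ∈ Bx m a, FI (G κ) x) (Lf 1 w x)) := by
    funext x
    beta_reduce
    have h3 : ∑ κ ∈ Bx m a, FI (G κ) (Lf 1 w x) = ∑ t ∈ Tv, FI (g' t) (Lf 1 w x) := by
      rw [← Finset.sum_fiberwise_of_maps_to (s := Tv) (t := Bx m a) (g := fun t => kap a (c t))
        (fun t _ => kap_mem a (c t))]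
      exact Finset.sum_congr rfl fun κ _ => hGF κ _
    rw [h3, Finset.mul_sum, Finset.mul_sum]
    exact Finset.sum_congr rfl fun t _ => hFI _ x
  have h4 : ∀ t, nrm p (FI (g t)) = k * nrm p (FI (g' t)) := by
    intro t
    rw [← hk]
    congr 1
    funext x
    exact hFI _ x
  have h5 : ∀ κ ∈ Bx m a, nrm p (FI (G κ)) ^ (2 : ℝ) ≤ ((M * (m + 1) ^ m : ℕ) : ℝ≥0∞) *
      ∑ t ∈ Tv.filter fun t => kap a (c t) = κ, nrm p (FI (g' t)) ^ (2 : ℝ) := by
    intro κ _
    have h6 : nrm p (FI (G κ)) ≤ ∑ t ∈ Tv.filter fun t => kap a (c t) = κ, nrm p (FI (g' t)) := by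
      have h7 : FI (G κ) = fun x => ∑ t ∈ Tv.filter fun t => kap a (c t) = κ, FI (g' t) x :=
        funext (hGF κ)
      rw [h7]
      exact nrm_sum_le hp1 _ _ fun t ht => hcont t (Finset.mem_filter.1 ht).1
    refine (ENNReal.rpow_le_rpow h6 (by norm_num)).trans ((sq_sum_le _ _).trans ?_)
    refine mul_le_mul' ?_ le_rfl
    have h8 := fib_card a M T c hM v κ
    rw [hTv, Finset.filter_filter]
    exact_mod_cast h8
  have h9 : l2 (Bx m a) (fun κ => nrm p (FI (G κ))) ≤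
      ((M * (m + 1) ^ m : ℕ) : ℝ≥0∞) ^ (1 / 2 : ℝ) * l2 Tv (fun t => nrm p (FI (g' t))) := by
    unfold l2
    rw [← ENNReal.mul_rpow_of_nonneg _ _ (by norm_num)]
    refine ENNReal.rpow_le_rpow ?_ (by norm_num)
    refine (Finset.sum_le_sum h5).trans (le_of_eq ?_)
    rw [← Finset.mul_sum]
    congr 1
    exact Finset.sum_fiberwise_of_maps_to (s := Tv) (t := Bx m a) (g := fun t => kap a (c t))
        (fun t _ => kap_mem a (c t)) (fun t => nrm p (FI (g' t)) ^ (2 : ℝ))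
  have h10 : l2 Tv (fun t => nrm p (FI (g t))) = k * l2 Tv (fun t => nrm p (FI (g' t))) := by
    unfold l2
    simp only [h4]
    have h11 : ∀ t ∈ Tv, (k * nrm p (FI (g' t))) ^ (2 : ℝ) =
        k ^ (2 : ℝ) * nrm p (FI (g' t)) ^ (2 : ℝ) := fun t _ =>
      ENNReal.mul_rpow_of_nonneg _ _ (by norm_num)
    rw [Finset.sum_congr rfl h11, ← Finset.mul_sum,
      ENNReal.mul_rpow_of_nonneg _ _ (by norm_num), ← ENNReal.rpow_mul]
    norm_num
  rw [h2, hk (fun x => ∑ κ ∈ Bx m a, FI (G κ) x), h10]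
  calc k * nrm p (fun x => ∑ κ ∈ Bx m a, FI (G κ) x)
      ≤ k * (D * (((M * (m + 1) ^ m : ℕ) : ℝ≥0∞) ^ (1 / 2 : ℝ) *
          l2 Tv (fun t => nrm p (FI (g' t))))) := mul_le_mul' le_rfl (h1.trans (mul_le_mul' le_rfl h9))
    _ = _ := by ring

/-- GNA -/
theorem pf_GNA : T_GNA := by
  classical
  intro m p hp hdec ε hε C0 R1 M
  obtain ⟨C1, hC1, hD⟩ := hdec (|C0| + (m + 1)) (by positivity) ε hε
  set V : Finset (Fin m → ℤ) := Fintype.piFinset fun _ => Finset.Icc (-⌈|R1|⌉ - 1) (⌈|R1|⌉ + 1)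
    with hV
  refine ⟨((V.card : ℝ) + 1) * (C1 * ((M * (m + 1) ^ m : ℕ) + 1)), by positivity, ?_⟩
  intro a ι T c g hc hg hM
  have hmap : ∀ t ∈ T, vin (c t) ∈ V := by
    intro t ht
    rw [hV, Fintype.mem_piFinset]
    intro i
    have h1 : |c t i| ≤ |R1| := ((coord_le (c t) i).trans (hc t ht)).trans (le_abs_self _)
    have h2 := abs_le.1 h1
    have h3 := Int.le_ceil |R1|
    have h4 := Int.floor_le (c t i)
    have h5 := Int.lt_floor_add_one (c t i)
    rw [Finset.mem_Icc]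
    have h6 : ((-⌈|R1|⌉ - 1 : ℤ) : ℝ) ≤ ((⌊c t i⌋ : ℤ) : ℝ) := by push_cast; linarith
    have h7 : ((⌊c t i⌋ : ℤ) : ℝ) ≤ ((⌈|R1|⌉ + 1 : ℤ) : ℝ) := by push_cast; linarith
    exact ⟨by exact_mod_cast h6, by exact_mod_cast h7⟩
  have hsplit : (fun x => ∑ t ∈ T, FI (g t) x) = fun x => ∑ v ∈ V,
      (fun x => ∑ t ∈ T.filter fun t => vin (c t) = v, FI (g t) x) x := by
    funext x
    exact (Finset.sum_fiberwise_of_maps_to hmap _).symm
  have hcont : ∀ t ∈ T, Continuous (FI (g t)) := fun t ht => (pf_FCT m (g t) (hg t ht).int).1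
  have h1 : nrm p (fun x => ∑ t ∈ T, FI (g t) x) ≤ ∑ v ∈ V,
      nrm p (fun x => ∑ t ∈ T.filter fun t => vin (c t) = v, FI (g t) x) := by
    rw [hsplit]
    refine nrm_sum_le (by linarith) V
      (fun v x => ∑ t ∈ T.filter fun t => vin (c t) = v, FI (g t) x) fun v _ => ?_
    exact continuous_finsetSum _ fun t ht => hcont t (Finset.mem_filter.1 ht).1
  have h2 : ∀ v ∈ V, nrm p (fun x => ∑ t ∈ T.filter fun t => vin (c t) = v, FI (g t) x) ≤
      ENNReal.ofReal (C1 * 2 ^ (ε * a)) * (((M * (m + 1) ^ m : ℕ) : ℝ≥0∞) ^ (1 / 2 : ℝ) *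
        l2 T (fun t => nrm p (FI (g t)))) := by
    intro v _
    refine (one_class hp (hD a) T c g hg hM v).trans ?_
    refine mul_le_mul' le_rfl (mul_le_mul' le_rfl ?_)
    unfold l2
    refine ENNReal.rpow_le_rpow ?_ (by norm_num)
    exact Finset.sum_le_sum_of_subset (Finset.filter_subset _ _)
  refine h1.trans ((Finset.sum_le_sum h2).trans ?_)
  rw [Finset.sum_const, nsmul_eq_mul, ← mul_assoc, ← mul_assoc]
  refine mul_le_mul' ?_ le_rfl
  have h3 : ((M * (m + 1) ^ m : ℕ) : ℝ≥0∞) ^ (1 / 2 : ℝ) ≤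
      ENNReal.ofReal ((M * (m + 1) ^ m : ℕ) + 1) := by
    rw [ENNReal.ofReal_add (by positivity) (by norm_num), ENNReal.ofReal_natCast,
      ENNReal.ofReal_one]
    have h4 : ((M * (m + 1) ^ m : ℕ) : ℝ≥0∞) ^ (1 / 2 : ℝ) ≤
        (((M * (m + 1) ^ m : ℕ) : ℝ≥0∞) + 1) ^ (1 / 2 : ℝ) :=
      ENNReal.rpow_le_rpow le_self_add (by norm_num)
    refine h4.trans ?_
    have h5 := ENNReal.rpow_le_rpow_of_exponent_le
      (show (1 : ℝ≥0∞) ≤ ((M * (m + 1) ^ m : ℕ) : ℝ≥0∞) + 1 from le_add_self)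
      (show (1 / 2 : ℝ) ≤ 1 by norm_num)
    rwa [ENNReal.rpow_one] at h5
  calc (V.card : ℝ≥0∞) * ENNReal.ofReal (C1 * 2 ^ (ε * a)) *
        ((M * (m + 1) ^ m : ℕ) : ℝ≥0∞) ^ (1 / 2 : ℝ)
      ≤ ENNReal.ofReal ((V.card : ℝ) + 1) * ENNReal.ofReal (C1 * 2 ^ (ε * a)) *
        ENNReal.ofReal ((M * (m + 1) ^ m : ℕ) + 1) := by
        refine mul_le_mul' (mul_le_mul' ?_ le_rfl) h3
        rw [← ENNReal.ofReal_natCast]
        exact ENNReal.ofReal_le_ofReal (by linarith)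
    _ = _ := by
        rw [← ENNReal.ofReal_mul (by positivity), ← ENNReal.ofReal_mul (by positivity)]
        congr 1
        ring

end Pool.Agent.H68.BD
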